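import Pool.Agent.helper51.PC.Spec

set_option autoImplicit false

namespace Pool.Agent.PC

open MvPolynomial

universe u

section

variable {K : Type u} [Field K] {v : K → ℤ}

theorem CEN_one (hv : DVal v) : v 1 = 0 := by
  have h := hv.mul 1 1 one_ne_zero one_ne_zero
  rw [mul_one] at h
  omega

theorem CEN_neg_one (hv : DVal v) : v (-1) = 0 := by
  have h := hv.mul (-1) (-1) (neg_ne_zero.2 one_ne_zero) (neg_ne_zero.2 one_ne_zero)
  rw [neg_mul_neg, mul_one, CEN_one hv] at h
  omega

theorem CEN_neg (hv : DVal v) {x : K} (hx : x ≠ 0) : v (-x) = v x := by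
  have h := hv.mul (-1) x (neg_ne_zero.2 one_ne_zero) hx
  rw [neg_one_mul, CEN_neg_one hv] at h
  omega

theorem CEN_inv (hv : DVal v) {x : K} (hx : x ≠ 0) : v x⁻¹ = - v x := by
  have h := hv.mul x x⁻¹ hx (inv_ne_zero hx)
  rw [mul_inv_cancel₀ hx, CEN_one hv] at h
  omega

theorem CEN_geadd (hv : DVal v) {r : ℤ} {x y : K} (hx : Ge v r x) (hy : Ge v r y) : Ge v r (x + y) := by
  by_cases hx0 : x = 0
  · rw [hx0, zero_add]; exact hy
  by_cases hy0 : y = 0
  · rw [hy0, add_zero]; exact hx
  by_cases hxy : x + y = 0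
  · exact Or.inl hxy
  · have h := hv.add x y hx0 hy0 hxy
    have h1 := hx.resolve_left hx0
    have h2 := hy.resolve_left hy0
    exact Or.inr (le_trans (le_min h1 h2) h)

theorem CEN_gemul (hv : DVal v) {r s : ℤ} {x y : K} (hx : Ge v r x) (hy : Ge v s y) :
    Ge v (r + s) (x * y) := by
  by_cases hx0 : x = 0
  · exact Or.inl (by rw [hx0, zero_mul])
  by_cases hy0 : y = 0
  · exact Or.inl (by rw [hy0, mul_zero])
  · have h := hv.mul x y hx0 hy0
    have h1 := hx.resolve_left hx0
    have h2 := hy.resolve_left hy0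
    right
    omega

theorem CEN_geneg (hv : DVal v) {r : ℤ} {x : K} (hx : Ge v r x) : Ge v r (-x) := by
  by_cases hx0 : x = 0
  · exact Or.inl (by rw [hx0, neg_zero])
  · right
    rw [CEN_neg hv hx0]
    exact hx.resolve_left hx0

end

section

variable {k : Type u} [Field k] {n d : ℕ} {v : KK k n → ℤ}

theorem CEN_poly (hv : DVal v) (hx : ∀ i, Ge v 0 (xx k n i))
    (hc : ∀ c : k, c ≠ 0 → v (algebraMap k (KK k n) c) = 0) (f : AA k n) :
    Ge v 0 (algebraMap (AA k n) (KK k n) f) := by
  induction f using MvPolynomial.induction_on with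
  | C a =>
    by_cases ha : a = 0
    · left
      rw [ha, map_zero, map_zero]
    · right
      have h := hc a ha
      rw [IsScalarTower.algebraMap_apply k (AA k n) (KK k n), MvPolynomial.algebraMap_eq] at h
      rw [h]
  | add p q hp hq =>
    rw [map_add]
    exact CEN_geadd hv hp hq
  | mul_X p i hp =>
    rw [map_mul]
    have h := CEN_gemul hv hp (hx i)
    rw [add_zero] at h
    exact h

theorem CEN_dvd (hv : DVal v) (hx : ∀ i, Ge v 0 (xx k n i))
    (hc : ∀ c : k, c ≠ 0 → v (algebraMap k (KK k n) c) = 0) (hn : 0 < n)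
    (h0 : 0 < v (xx k n ⟨0, hn⟩))
    (hP : ∀ P : AA k n, P ≠ 0 → ⟨0, hn⟩ ∉ P.vars → ¬ 0 < v (algebraMap (AA k n) (KK k n) P)) (f : AA k n) :
    Ge v 1 (algebraMap (AA k n) (KK k n) f) ↔ (X ⟨0, hn⟩ : AA k n) ∣ f := by
  have hmul : ∀ g : AA k n, Ge v 1 (algebraMap (AA k n) (KK k n) (X ⟨0, hn⟩ * g)) := by
    intro g
    rw [map_mul]
    have h1 : Ge v 1 (algebraMap (AA k n) (KK k n) (X ⟨0, hn⟩)) := Or.inr h0
    have h := CEN_gemul hv h1 (CEN_poly hv hx hc g)
    rw [add_zero] at h
    exact h
  constructor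
  · intro hf
    have hdec := divMonomial_add_modMonomial_single f (⟨0, hn⟩ : Fin n)
    set g := f.divMonomial (Finsupp.single (⟨0, hn⟩ : Fin n) 1) with hg
    set P := f.modMonomial (Finsupp.single (⟨0, hn⟩ : Fin n) 1) with hPd
    by_cases hP0 : P = 0
    · refine ⟨g, ?_⟩
      rw [hP0, add_zero] at hdec
      exact hdec.symm
    · exfalso
      have hvars : (⟨0, hn⟩ : Fin n) ∉ P.vars := by
        intro hmem
        rw [MvPolynomial.mem_vars_iff_mem_support] at hmem
        obtain ⟨m, hm, hm2⟩ := hmem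
        have hle : Finsupp.single (⟨0, hn⟩ : Fin n) 1 ≤ m := by
          rw [Finsupp.single_le_iff]
          exact Nat.one_le_iff_ne_zero.2 (Finsupp.mem_support_iff.1 hm2)
        exact (MvPolynomial.mem_support_iff.1 hm) (coeff_modMonomial_of_le f hle)
      have hne : algebraMap (AA k n) (KK k n) P ≠ 0 := by
        intro h
        exact hP0 ((IsFractionRing.injective (AA k n) (KK k n)) (by rw [h, map_zero]))
      have hPeq : P = f + -(X ⟨0, hn⟩ * g) := by
        rw [← hdec]; ring
      have hge : Ge v 1 (algebraMap (AA k n) (KK k n) P) := by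
        rw [hPeq, map_add, map_neg]
        exact CEN_geadd hv hf (CEN_geneg hv (hmul g))
      have h1 := hge.resolve_left hne
      exact hP P hP0 hvars (by omega)
  · rintro ⟨g, rfl⟩
    exact hmul g

theorem CEN_io (r : RR k n d) : io k n d (algebraMap (RR k n d) (FF k n d) r) =
    algebraMap (AA k n) (KK k n) (r : AA k n) := by
  unfold io
  rw [IsFractionRing.liftAlgHom_apply]
  exact IsLocalization.lift_eq _ r

end

theorem CEN (hSID : SID_stmt.{u}) : CEN_stmt.{u} := by
  intro k _ n d hn hNoe v O P' hv hx hc hO hC hht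
  by_contra hcon
  rw [not_or] at hcon
  obtain ⟨hv0, hP⟩ := hcon
  have hP' : ∀ P : AA k n, P ≠ 0 → ⟨0, hn⟩ ∉ P.vars → ¬ 0 < v (algebraMap (AA k n) (KK k n) P) :=
    fun P h1 h2 h3 => hP ⟨P, h1, h2, h3⟩
  have hX : xx k n ⟨0, hn⟩ ≠ 0 := by
    intro h
    have h2 : (X ⟨0, hn⟩ : AA k n) = 0 :=
      (IsFractionRing.injective (AA k n) (KK k n)) (by
        rw [map_zero]; exact h)
    exact MvPolynomial.X_ne_zero _ h2
  have h0 : 0 < v (xx k n ⟨0, hn⟩) := by
    have h := (hx ⟨0, hn⟩).resolve_left hX
    omega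
  have hd := CEN_dvd hv hx hc hn h0 hP'
  obtain ⟨x, hxX, hmem, hpr, hh1, -⟩ := hSID k n d hn hNoe
  have hEq : P' = Ideal.span {x} := by
    ext r
    rw [hmem, ← hd, (hC r).2, ValuationSubring.mem_nonunits_iff]
    have hio := CEN_io (k := k) (n := n) (d := d) r
    by_cases hr : r = 0
    · subst hr
      rw [map_zero, map_zero]
      constructor
      · intro _
        left
        rw [ZeroMemClass.coe_zero, map_zero]
      · intro _
        exact zero_lt_one
    · have hr1 : algebraMap (RR k n d) (FF k n d) r ≠ 0 := by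
        intro h
        exact hr ((IsFractionRing.injective (RR k n d) (FF k n d)) (by rw [h, map_zero]))
      have hr2 : io k n d (algebraMap (RR k n d) (FF k n d) r) ≠ 0 := by
        intro h
        exact hr1 ((io k n d).toRingHom.injective (by
          rw [map_zero]; exact h))
      have h1 : O.valuation (algebraMap (RR k n d) (FF k n d) r) < 1 ↔
          (algebraMap (RR k n d) (FF k n d) r)⁻¹ ∉ O := by
        rw [← ValuationSubring.valuation_le_one_iff, map_inv₀, not_le]
        exact (one_lt_inv₀ (zero_lt_iff.2 (by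
          intro h; exact hr1 ((map_eq_zero _).1 h)))).symm
      rw [h1, hO, map_inv₀, ← hio]
      constructor
      · intro h
        right
        by_contra h3
        apply h
        right
        rw [CEN_inv hv hr2]
        omega
      · intro h h3
        have h4 := h.resolve_left hr2
        have h5 := h3.resolve_left (inv_ne_zero hr2)
        rw [CEN_inv hv hr2] at h5
        omega
  rw [hEq, hh1] at hht
  exact absurd hht (by norm_num)

end Pool.Agent.PC
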