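import Pool.Agent.helper51.PC.Spec

set_option autoImplicit false

namespace Pool.Agent.PC

open MvPolynomial

universe u

section

variable {k : Type u} [Field k] {n d : ℕ} {D : Fin n → Derivation k (KK k n) (KK k n)}
  {s : KK k n →+* KK k n}

theorem JIN_poly (hD : IsPar k n D) (hs : ∀ c : k, s (algebraMap k (KK k n) c) = algebraMap k (KK k n) c)
    (j : Fin n) (f : AA k n) :
    D j (s (algebraMap (AA k n) (KK k n) f)) =
      ∑ l, D j (s (xx k n l)) * s (D l (algebraMap (AA k n) (KK k n) f)) := by
  induction f using MvPolynomial.induction_on with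
  | C a =>
    have h : algebraMap (AA k n) (KK k n) (C a) = algebraMap k (KK k n) a := by
      rw [IsScalarTower.algebraMap_apply k (AA k n) (KK k n), MvPolynomial.algebraMap_eq]
    rw [h, hs, Derivation.map_algebraMap]
    symm
    apply Finset.sum_eq_zero
    intro l _
    rw [Derivation.map_algebraMap, map_zero, mul_zero]
  | add p q hp hq =>
    rw [map_add, map_add, map_add, hp, hq, ← Finset.sum_add_distrib]
    apply Finset.sum_congr rfl
    intro l _
    rw [map_add, map_add, mul_add]
  | mul_X p i hp =>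
    have hx : algebraMap (AA k n) (KK k n) (X i) = xx k n i := rfl
    rw [map_mul, map_mul, Derivation.leibniz, hp, hx]
    have h : ∀ l, D j (s (xx k n l)) * s (D l (algebraMap (AA k n) (KK k n) p * xx k n i)) =
        s (algebraMap (AA k n) (KK k n) p) * (if l = i then D j (s (xx k n l)) else 0) +
        s (xx k n i) * (D j (s (xx k n l)) * s (D l (algebraMap (AA k n) (KK k n) p))) := by
      intro l
      rw [Derivation.leibniz, map_add, smul_eq_mul, smul_eq_mul, map_mul, map_mul, hD l i]
      by_cases hl : l = i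
      · rw [if_pos hl, if_pos hl, map_one]; ring
      · rw [if_neg hl, if_neg hl, map_zero]; ring
    rw [Finset.sum_congr rfl fun l _ => h l, Finset.sum_add_distrib, ← Finset.mul_sum,
      ← Finset.mul_sum, Finset.sum_ite_eq' Finset.univ i, if_pos (Finset.mem_univ i)]
    rw [smul_eq_mul, smul_eq_mul]

theorem JIN_all (hD : IsPar k n D) (hs : ∀ c : k, s (algebraMap k (KK k n) c) = algebraMap k (KK k n) c)
    (j : Fin n) (f : KK k n) :
    D j (s f) = ∑ l, D j (s (xx k n l)) * s (D l f) := by
  obtain ⟨a, b, hb, hf⟩ := IsFractionRing.div_surjective (A := AA k n) f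
  have hb0 : algebraMap (AA k n) (KK k n) b ≠ 0 := by
    intro h
    exact nonZeroDivisors.ne_zero hb
      ((IsFractionRing.injective (AA k n) (KK k n)) (by rw [h, map_zero]))
  have hab : algebraMap (AA k n) (KK k n) a = f * algebraMap (AA k n) (KK k n) b := by
    rw [← hf, div_mul_cancel₀ _ hb0]
  have h1 := JIN_poly hD hs j a
  have h2 := JIN_poly hD hs j b
  rw [hab, map_mul, Derivation.leibniz, smul_eq_mul, smul_eq_mul, h2] at h1
  have h : ∀ l, D j (s (xx k n l)) * s (D l (f * algebraMap (AA k n) (KK k n) b)) =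
      s f * (D j (s (xx k n l)) * s (D l (algebraMap (AA k n) (KK k n) b))) +
      s (algebraMap (AA k n) (KK k n) b) * (D j (s (xx k n l)) * s (D l f)) := by
    intro l
    rw [Derivation.leibniz, map_add, smul_eq_mul, smul_eq_mul, map_mul, map_mul]
    ring
  rw [Finset.sum_congr rfl fun l _ => h l, Finset.sum_add_distrib, ← Finset.mul_sum,
    ← Finset.mul_sum] at h1
  have h3 := add_left_cancel h1
  exact mul_left_cancel₀ (by
    intro h4
    exact hb0 (s.injective (by rw [h4, map_zero]))) h3

theorem JIN_det (hD : IsPar k n D) (hs : IsSg k n d s) :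
    (Matrix.of fun j l : Fin n => D j (s (xx k n l))).det = 1 := by
  have hx : ∀ l : Fin n, s (xx k n l) = xx k n l + if h : 0 < (l : ℕ) ∧ (l : ℕ) < d then
      xx k n ⟨(l : ℕ) - 1, by omega⟩ else 0 := by
    intro l
    have h := hs (X l)
    have hx1 : algebraMap (AA k n) (KK k n) (X l) = xx k n l := rfl
    rw [hx1] at h
    rw [h]
    unfold sg
    rw [aeval_X, map_add, hx1]
    congr 1
    split_ifs
    · rfl
    · rw [map_zero]
  have hent : ∀ j l : Fin n, D j (s (xx k n l)) = (if j = l then 1 else 0) +
      if 0 < (l : ℕ) ∧ (l : ℕ) < d ∧ (j : ℕ) = (l : ℕ) - 1 then 1 else 0 := by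
    intro j l
    rw [hx l, map_add, hD j l]
    congr 1
    by_cases h : 0 < (l : ℕ) ∧ (l : ℕ) < d
    · rw [dif_pos h, hD]
      by_cases hj : (j : ℕ) = (l : ℕ) - 1
      · rw [if_pos (Fin.ext hj), if_pos ⟨h.1, h.2, hj⟩]
      · rw [if_neg (fun h2 => hj (congrArg Fin.val h2)), if_neg (fun h2 => hj h2.2.2)]
    · rw [dif_neg h, map_zero, if_neg (fun h2 => h ⟨h2.1, h2.2.1⟩)]
  rw [Matrix.det_of_upperTriangular]
  · apply Finset.prod_eq_one
    intro i _
    rw [Matrix.of_apply, hent, if_pos rfl, if_neg (by omega), add_zero]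
  · intro i j hij
    have hij' : j < i := hij
    rw [Matrix.of_apply, hent, if_neg (by
      intro h; rw [h] at hij'; exact lt_irrefl _ hij'), if_neg (by
      have h1 : (j : ℕ) < (i : ℕ) := hij'
      omega), add_zero]

end

theorem JIN : JIN_stmt.{u} := by
  intro k _ n d D hD s hs hc f hf
  have hdet := JIN_det (d := d) hD hs
  have h1 : (Matrix.of fun i j : Fin n => D j (f i)) =
      (Matrix.of fun i j : Fin n => D j (f i)).map s *
        (Matrix.of fun j l : Fin n => D j (s (xx k n l))).transpose := by
    ext i j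
    rw [Matrix.mul_apply, Matrix.of_apply]
    have h2 := JIN_all hD hc j (f i)
    rw [hf i] at h2
    rw [h2]
    apply Finset.sum_congr rfl
    intro l _
    rw [Matrix.map_apply, Matrix.transpose_apply, Matrix.of_apply, Matrix.of_apply, mul_comm]
  unfold JJ
  have h3 := congrArg Matrix.det h1
  rw [Matrix.det_mul, Matrix.det_transpose, hdet, mul_one] at h3
  rw [RingHom.map_det, RingHom.mapMatrix_apply]
  exact h3.symm

end Pool.Agent.PC
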