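import Pool.Agent.helper27.PC.Stmt

set_option linter.all false
set_option autoImplicit false

/-!
# PC project: dimension of an algebra with the relations of type `B_n`
-/

namespace Pool.Agent.helper27.PC

section DIM

variable {K R : Type} [Field K] [Ring R] [Algebra K R] {c : K} {n : ℕ} {τ : ℕ → R}

/-- `τ m * τ (m - 1) * ...`, `j` factors -/
def DIM_D (τ : ℕ → R) (m : ℕ) : ℕ → R
  | 0 => 1
  | j + 1 => DIM_D τ m j * τ (m - j)

/-- `τ 1 * ... * τ k` -/
def DIM_U (τ : ℕ → R) : ℕ → R
  | 0 => 1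
  | k + 1 => DIM_U τ k * τ (k + 1)

theorem DIM_A (h : RelB c n τ) {m : ℕ} (hm : m < n) : ∀ j, ∀ i, i + j < m →
    τ i * DIM_D τ m j = DIM_D τ m j * τ i := by
  intro j
  induction j with
  | zero => intro i _; simp [DIM_D]
  | succ j ih =>
    intro i hi
    have h1 := ih i (by omega)
    have h2 := h.comm i (m - j) (by omega) (by omega)
    calc τ i * (DIM_D τ m j * τ (m - j)) = (τ i * DIM_D τ m j) * τ (m - j) := by
          rw [mul_assoc]
      _ = DIM_D τ m j * (τ i * τ (m - j)) := by rw [h1, mul_assoc]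
      _ = DIM_D τ m j * τ (m - j) * τ i := by rw [h2, mul_assoc]

theorem DIM_B (h : RelB c n τ) {m : ℕ} (hm : m < n) (i : ℕ) (hi : 2 ≤ i) (him : i ≤ m) :
    ∀ j, j ≤ m + 1 → m + 2 ≤ i + j → DIM_D τ m j * τ i = τ (i - 1) * DIM_D τ m j := by
  intro j
  induction j with
  | zero => intro _ h2; omega
  | succ j ih =>
    intro hj h2
    by_cases h3 : m + 2 ≤ i + j
    · have h4 := ih (by omega) h3
      have h5 := h.comm (m - j) i (by omega) (by omega)
      calc DIM_D τ m j * τ (m - j) * τ i = DIM_D τ m j * (τ (m - j) * τ i) := by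
            rw [mul_assoc]
        _ = (DIM_D τ m j * τ i) * τ (m - j) := by rw [h5, mul_assoc]
        _ = τ (i - 1) * (DIM_D τ m j * τ (m - j)) := by rw [h4, mul_assoc]
    · obtain ⟨j', rfl⟩ : ∃ j', j = j' + 1 := ⟨j - 1, by omega⟩
      have e1 : m - j' = i := by omega
      have e2 : m - (j' + 1) = i - 1 := by omega
      have h6 := DIM_A h hm j' (i - 1) (by omega)
      have h7 := h.braid (i - 1) (by omega) (by omega)
      have e3 : i - 1 + 1 = i := by omega
      rw [e3] at h7
      have e4 : DIM_D τ m (j' + 1 + 1) = DIM_D τ m j' * τ i * τ (i - 1) := by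
        simp only [DIM_D, e1, e2]
      rw [e4]
      calc DIM_D τ m j' * τ i * τ (i - 1) * τ i
          = DIM_D τ m j' * (τ i * τ (i - 1) * τ i) := by simp only [mul_assoc]
        _ = DIM_D τ m j' * (τ (i - 1) * τ i * τ (i - 1)) := by rw [h7]
        _ = (DIM_D τ m j' * τ (i - 1)) * τ i * τ (i - 1) := by simp only [mul_assoc]
        _ = _ := by rw [← h6]; simp only [mul_assoc]

theorem DIM_C (h : RelB c n τ) : ∀ k i, k + 2 ≤ i → i < n →
    τ i * DIM_U τ k = DIM_U τ k * τ i := by
  intro k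
  induction k with
  | zero => intro i _ _; simp [DIM_U]
  | succ k ih =>
    intro i hi hin
    have h1 := ih i (by omega) hin
    have h2 := h.comm (k + 1) i (by omega) hin
    calc τ i * (DIM_U τ k * τ (k + 1)) = (τ i * DIM_U τ k) * τ (k + 1) := by rw [mul_assoc]
      _ = DIM_U τ k * (τ i * τ (k + 1)) := by rw [h1, mul_assoc]
      _ = DIM_U τ k * τ (k + 1) * τ i := by rw [← h2, mul_assoc]

theorem DIM_E (h : RelB c n τ) (i : ℕ) (hi : 1 ≤ i) : ∀ k, i < k → k < n →
    DIM_U τ k * τ i = τ (i + 1) * DIM_U τ k := by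
  intro k
  induction k with
  | zero => intro h1 _; omega
  | succ k ih =>
    intro hk hkn
    by_cases h3 : i < k
    · have h4 := ih h3 (by omega)
      have h5 := h.comm i (k + 1) (by omega) hkn
      calc DIM_U τ k * τ (k + 1) * τ i = DIM_U τ k * (τ (k + 1) * τ i) := by rw [mul_assoc]
        _ = (DIM_U τ k * τ i) * τ (k + 1) := by rw [← h5, mul_assoc]
        _ = τ (i + 1) * (DIM_U τ k * τ (k + 1)) := by rw [h4, mul_assoc]
    · obtain rfl : k = i := by omega
      obtain ⟨k', rfl⟩ : ∃ k', k = k' + 1 := ⟨k - 1, by omega⟩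
      have h6 := DIM_C h k' (k' + 1 + 1) (by omega) hkn
      have h7 := h.braid (k' + 1) (by omega) hkn
      simp only [DIM_U]
      calc DIM_U τ k' * τ (k' + 1) * τ (k' + 1 + 1) * τ (k' + 1)
          = DIM_U τ k' * (τ (k' + 1) * τ (k' + 1 + 1) * τ (k' + 1)) := by simp only [mul_assoc]
        _ = DIM_U τ k' * (τ (k' + 1 + 1) * τ (k' + 1) * τ (k' + 1 + 1)) := by rw [h7]
        _ = (DIM_U τ k' * τ (k' + 1 + 1)) * τ (k' + 1) * τ (k' + 1 + 1) := by
            simp only [mul_assoc]
        _ = _ := by rw [← h6]; simp only [mul_assoc]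

theorem DIM_F (h : RelB c n τ) {m : ℕ} (hm : m < n) (hm1 : 1 ≤ m) : ∀ k, 1 ≤ k → k ≤ m →
    DIM_D τ m (m + 1) * DIM_U τ k * τ 0 = τ 0 * (DIM_D τ m (m + 1) * DIM_U τ k) := by
  intro k
  induction k with
  | zero => intro h1 _; omega
  | succ k ih =>
    intro _ hk
    by_cases h1 : k = 0
    · subst h1
      obtain ⟨m', rfl⟩ : ∃ m', m = m' + 1 := ⟨m - 1, by omega⟩
      have h2 := DIM_A h hm m' 0 (by omega)
      have h3 := h.braid0 (by omega)
      have e1 : DIM_D τ (m' + 1) (m' + 1 + 1) = DIM_D τ (m' + 1) m' * τ 1 * τ 0 := by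
        simp only [DIM_D]
        have e2 : m' + 1 - m' = 1 := by omega
        rw [e2, Nat.sub_self]
      rw [e1]
      simp only [DIM_U, zero_add, one_mul]
      calc DIM_D τ (m' + 1) m' * τ 1 * τ 0 * τ 1 * τ 0
          = DIM_D τ (m' + 1) m' * (τ 1 * τ 0 * τ 1 * τ 0) := by simp only [mul_assoc]
        _ = DIM_D τ (m' + 1) m' * (τ 0 * τ 1 * τ 0 * τ 1) := by rw [h3]
        _ = (DIM_D τ (m' + 1) m' * τ 0) * τ 1 * τ 0 * τ 1 := by simp only [mul_assoc]
        _ = _ := by rw [← h2]; simp only [mul_assoc]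
    · have h4 := ih (by omega) (by omega)
      have h5 := h.comm 0 (k + 1) (by omega) (by omega)
      simp only [DIM_U]
      calc DIM_D τ m (m + 1) * (DIM_U τ k * τ (k + 1)) * τ 0
          = DIM_D τ m (m + 1) * DIM_U τ k * (τ (k + 1) * τ 0) := by simp only [mul_assoc]
        _ = (DIM_D τ m (m + 1) * DIM_U τ k * τ 0) * τ (k + 1) := by
            rw [← h5]; simp only [mul_assoc]
        _ = _ := by rw [h4]; simp only [mul_assoc]

/-- the coset representatives -/
def DIM_M (τ : ℕ → R) (m : ℕ) : Set R :=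
  {x | (∃ j ≤ m, x = DIM_D τ m j) ∨ ∃ k ≤ m, x = DIM_D τ m (m + 1) * DIM_U τ k}

/-- the small algebra -/
def DIM_P (K : Type) {R : Type} [Field K] [Ring R] [Algebra K R] (τ : ℕ → R) (m : ℕ) :
    Submodule K R := Subalgebra.toSubmodule (Algebra.adjoin K (τ '' {i | i < m}))

theorem DIM_tau_mem {i m : ℕ} (hi : i < m) : τ i ∈ DIM_P K τ m :=
  Algebra.subset_adjoin ⟨i, hi, rfl⟩

theorem DIM_one_mem (m : ℕ) : (1 : R) ∈ DIM_P K τ m :=
  Subalgebra.one_mem (Algebra.adjoin K (τ '' {i | i < m}))

theorem DIM_PP (m : ℕ) : DIM_P K τ m * DIM_P K τ m ≤ DIM_P K τ m := by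
  rw [Submodule.mul_le]
  intro a ha b hb
  exact Subalgebra.mul_mem _ ha hb

theorem DIM_left {m : ℕ} {a x : R} (ha : a ∈ DIM_P K τ m)
    (hx : x ∈ DIM_P K τ m * Submodule.span K (DIM_M τ m)) :
    a * x ∈ DIM_P K τ m * Submodule.span K (DIM_M τ m) := by
  have h1 : a * x ∈ DIM_P K τ m * (DIM_P K τ m * Submodule.span K (DIM_M τ m)) :=
    Submodule.mul_mem_mul ha hx
  rw [← mul_assoc] at h1
  exact Submodule.mul_le.2 (fun x hx y hy => Submodule.mul_mem_mul (DIM_PP m hx) hy) h1

theorem DIM_sub {m : ℕ} {x : R} (hx : x ∈ DIM_M τ m) :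
    x ∈ DIM_P K τ m * Submodule.span K (DIM_M τ m) := by
  have h1 := Submodule.mul_mem_mul (DIM_one_mem (K := K) (τ := τ) m)
    (Submodule.subset_span (R := K) hx)
  rwa [one_mul] at h1

theorem DIM_step (h : RelB c n τ) {m : ℕ} (hm : m < n) {i : ℕ} (hi : i ≤ m) {x : R}
    (hx : x ∈ DIM_M τ m) : x * τ i ∈ DIM_P K τ m * Submodule.span K (DIM_M τ m) := by
  have memD : ∀ j ≤ m, DIM_D τ m j ∈ DIM_M τ m := fun j hj => Or.inl ⟨j, hj, rfl⟩
  have memU : ∀ k ≤ m, DIM_D τ m (m + 1) * DIM_U τ k ∈ DIM_M τ m :=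
    fun k hk => Or.inr ⟨k, hk, rfl⟩
  have memE : DIM_D τ m (m + 1) ∈ DIM_M τ m := by
    have := memU 0 (Nat.zero_le _)
    simpa [DIM_U] using this
  have memD' : ∀ j ≤ m + 1, DIM_D τ m j ∈ DIM_M τ m := by
    intro j hj
    rcases Nat.lt_or_ge m j with h1 | h1
    · obtain rfl : j = m + 1 := by omega
      exact memE
    · exact memD j h1
  rcases hx with ⟨j, hj, rfl⟩ | ⟨k, hk, rfl⟩
  · by_cases h1 : i + j = m
    · have e1 : DIM_D τ m j * τ i = DIM_D τ m (j + 1) := by
        simp only [DIM_D]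
        congr 2
        omega
      rw [e1]
      exact DIM_sub (memD' _ (by omega))
    · by_cases h2 : i + j < m
      · rw [← DIM_A h hm j i h2]
        exact DIM_left (DIM_tau_mem (by omega)) (DIM_sub (memD j hj))
      · by_cases h3 : i + j = m + 1
        · obtain ⟨j', rfl⟩ : ∃ j', j = j' + 1 := ⟨j - 1, by omega⟩
          have e1 : m - j' = i := by omega
          have e2 : DIM_D τ m (j' + 1) = DIM_D τ m j' * τ i := by
            simp only [DIM_D, e1]
          have e3 : DIM_D τ m (j' + 1) * τ i = c • DIM_D τ m (j' + 1) + DIM_D τ m j' := by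
            rw [e2, mul_assoc, h.quad i (by omega), mul_add, mul_one, mul_smul_comm]
          rw [e3]
          exact Submodule.add_mem _ (Submodule.smul_mem _ _ (DIM_sub (memD _ hj)))
            (DIM_sub (memD _ (by omega)))
        · rw [DIM_B h hm i (by omega) hi j (by omega) (by omega)]
          exact DIM_left (DIM_tau_mem (by omega)) (DIM_sub (memD j hj))
  · by_cases h1 : i = k + 1
    · have e1 : DIM_D τ m (m + 1) * DIM_U τ k * τ i =
          DIM_D τ m (m + 1) * DIM_U τ (k + 1) := by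
        rw [h1]; simp only [DIM_U, mul_assoc]
      rw [e1]
      exact DIM_sub (memU _ (by omega))
    · by_cases h2 : k + 2 ≤ i
      · have e1 : DIM_D τ m (m + 1) * DIM_U τ k * τ i =
            τ (i - 1) * (DIM_D τ m (m + 1) * DIM_U τ k) := by
          rw [mul_assoc, ← DIM_C h k i h2 (by omega), ← mul_assoc,
            DIM_B h hm i (by omega) hi (m + 1) le_rfl (by omega), mul_assoc]
        rw [e1]
        exact DIM_left (DIM_tau_mem (by omega)) (DIM_sub (memU k hk))
      · by_cases h3 : i = k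
        · subst h3
          by_cases h4 : i = 0
          · subst h4
            have e1 : DIM_D τ m (m + 1) = DIM_D τ m m * τ 0 := by
              simp only [DIM_D, Nat.sub_self]
            have e3 : DIM_D τ m (m + 1) * DIM_U τ 0 * τ 0 =
                c • DIM_D τ m (m + 1) + DIM_D τ m m := by
              simp only [DIM_U, mul_one]
              rw [e1, mul_assoc, h.quad 0 (by omega), mul_add, mul_one, mul_smul_comm]
            rw [e3]
            exact Submodule.add_mem _ (Submodule.smul_mem _ _ (DIM_sub memE))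
              (DIM_sub (memD _ le_rfl))
          · obtain ⟨k', rfl⟩ : ∃ k', i = k' + 1 := ⟨i - 1, by omega⟩
            have e3 : DIM_D τ m (m + 1) * DIM_U τ (k' + 1) * τ (k' + 1) =
                c • (DIM_D τ m (m + 1) * DIM_U τ (k' + 1)) +
                  DIM_D τ m (m + 1) * DIM_U τ k' := by
              simp only [DIM_U]
              rw [mul_assoc, mul_assoc, h.quad (k' + 1) (by omega)]
              simp only [mul_add, mul_one, mul_smul_comm]
            rw [e3]
            exact Submodule.add_mem _ (Submodule.smul_mem _ _ (DIM_sub (memU _ hk)))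
              (DIM_sub (memU _ (by omega)))
        · by_cases h4 : i = 0
          · subst h4
            rw [DIM_F h hm (by omega) k (by omega) hk]
            exact DIM_left (DIM_tau_mem (by omega)) (DIM_sub (memU k hk))
          · have e1 : DIM_D τ m (m + 1) * DIM_U τ k * τ i =
                τ i * (DIM_D τ m (m + 1) * DIM_U τ k) := by
              rw [mul_assoc, DIM_E h i (by omega) k (by omega) (by omega), ← mul_assoc,
                DIM_B h hm (i + 1) (by omega) (by omega) (m + 1) le_rfl (by omega), mul_assoc]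
              simp
            rw [e1]
            exact DIM_left (DIM_tau_mem (by omega)) (DIM_sub (memU k hk))

theorem DIM_closed (h : RelB c n τ) {m : ℕ} (hm : m < n) {i : ℕ} (hi : i ≤ m) {x : R}
    (hx : x ∈ DIM_P K τ m * Submodule.span K (DIM_M τ m)) :
    x * τ i ∈ DIM_P K τ m * Submodule.span K (DIM_M τ m) := by
  refine Submodule.mul_induction_on hx ?_ ?_
  · intro a ha b hb
    rw [mul_assoc]
    refine DIM_left ha ?_
    refine Submodule.span_induction (p := fun b _ => b * τ i ∈
      DIM_P K τ m * Submodule.span K (DIM_M τ m)) ?_ ?_ ?_ ?_ hb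
    · intro y hy
      exact DIM_step h hm hi hy
    · simp
    · intro y z _ _ hy hz
      rw [add_mul]
      exact Submodule.add_mem _ hy hz
    · intro r y _ hy
      rw [smul_mul_assoc]
      exact Submodule.smul_mem _ _ hy
  · intro y z hy hz
    rw [add_mul]
    exact Submodule.add_mem _ hy hz

theorem DIM_le (h : RelB c n τ) {m : ℕ} (hm : m < n) :
    DIM_P K τ (m + 1) ≤ DIM_P K τ m * Submodule.span K (DIM_M τ m) := by
  have hone : (1 : R) ∈ DIM_P K τ m * Submodule.span K (DIM_M τ m) :=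
    DIM_sub (Or.inl ⟨0, Nat.zero_le _, rfl⟩)
  have key : ∀ y ∈ Algebra.adjoin K (τ '' {i | i < m + 1}),
      ∀ x ∈ DIM_P K τ m * Submodule.span K (DIM_M τ m),
      x * y ∈ DIM_P K τ m * Submodule.span K (DIM_M τ m) := by
    intro y hy
    refine Algebra.adjoin_induction (p := fun y _ =>
      ∀ x ∈ DIM_P K τ m * Submodule.span K (DIM_M τ m),
      x * y ∈ DIM_P K τ m * Submodule.span K (DIM_M τ m)) ?_ ?_ ?_ ?_ hy
    · rintro _ ⟨i, hi, rfl⟩ x hx
      have hi' : i < m + 1 := hi
      exact DIM_closed h hm (by omega) hx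
    · intro r x hx
      rw [← Algebra.commutes, ← Algebra.smul_def]
      exact Submodule.smul_mem _ _ hx
    · intro y z _ _ hy hz x hx
      rw [mul_add]
      exact Submodule.add_mem _ (hy x hx) (hz x hx)
    · intro y z _ _ hy hz x hx
      rw [← mul_assoc]
      exact hz _ (hy x hx)
  intro y hy
  have := key y hy 1 hone
  rwa [one_mul] at this

open Classical in
/-- the coset representatives as a finite set -/
noncomputable def DIM_MF (τ : ℕ → R) (m : ℕ) : Finset R :=
  (Finset.range (m + 1)).image (DIM_D τ m) ∪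
    (Finset.range (m + 1)).image (fun k => DIM_D τ m (m + 1) * DIM_U τ k)

theorem DIM_MF_coe (m : ℕ) : ((DIM_MF τ m : Finset R) : Set R) = DIM_M τ m := by
  ext x
  simp only [DIM_MF, Finset.coe_union, Finset.coe_image, Finset.coe_range, Set.mem_union,
    Set.mem_image, Set.mem_Iio, DIM_M, Set.mem_setOf_eq, Nat.lt_succ_iff]
  constructor
  · rintro (⟨j, hj, rfl⟩ | ⟨j, hj, rfl⟩)
    · exact Or.inl ⟨j, hj, rfl⟩
    · exact Or.inr ⟨j, hj, rfl⟩
  · rintro (⟨j, hj, rfl⟩ | ⟨j, hj, rfl⟩)
    · exact Or.inl ⟨j, hj, rfl⟩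
    · exact Or.inr ⟨j, hj, rfl⟩

theorem DIM_MF_card (m : ℕ) : (DIM_MF τ m).card ≤ 2 * (m + 1) := by
  classical
  unfold DIM_MF
  refine (Finset.card_union_le _ _).trans ?_
  have h1 : ((Finset.range (m + 1)).image (DIM_D τ m)).card ≤ m + 1 := by
    refine Finset.card_image_le.trans ?_
    simp
  have h2 : ((Finset.range (m + 1)).image
      (fun k => DIM_D τ m (m + 1) * DIM_U τ k)).card ≤ m + 1 := by
    refine Finset.card_image_le.trans ?_
    simp
  omega

theorem DIM_main (h : RelB c n τ) : ∀ m ≤ n, ∃ s : Finset R, s.card ≤ 2 ^ m * m.factorial ∧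
    DIM_P K τ m ≤ Submodule.span K (s : Set R) := by
  classical
  intro m
  induction m with
  | zero =>
    intro _
    refine ⟨{1}, by simp, ?_⟩
    have : τ '' {i | i < 0} = ∅ := by simp
    rw [DIM_P, this, Algebra.adjoin_empty]
    intro x hx
    rw [Subalgebra.mem_toSubmodule, Algebra.mem_bot] at hx
    obtain ⟨r, rfl⟩ := hx
    rw [Algebra.algebraMap_eq_smul_one]
    exact Submodule.smul_mem _ _ (Submodule.subset_span (by simp))
  | succ m ih =>
    intro hm
    obtain ⟨s, hs, hP⟩ := ih (by omega)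
    refine ⟨Finset.image₂ (· * ·) s (DIM_MF τ m), ?_, ?_⟩
    · refine (Finset.card_image₂_le _ _ _).trans ?_
      calc s.card * (DIM_MF τ m).card ≤ (2 ^ m * m.factorial) * (2 * (m + 1)) :=
            Nat.mul_le_mul hs (DIM_MF_card m)
        _ = _ := by rw [Nat.factorial_succ]; ring
    · refine (DIM_le h (by omega)).trans ?_
      rw [Finset.coe_image₂, Set.image2_mul, ← Submodule.span_mul_span, DIM_MF_coe]
      exact Submodule.mul_le.2 (fun x hx y hy => Submodule.mul_mem_mul (hP hx) hy)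

end DIM

theorem DIM : DIM_stmt := by
  intro K R _ _ _ c n τ h
  obtain ⟨s, hs, hP⟩ := DIM_main h n le_rfl
  have hfin : Module.Finite K (Submodule.span K (s : Set R)) :=
    Module.Finite.span_of_finite K s.finite_toSet
  have h1 : Module.Finite K (DIM_P K τ n) := by
    haveI := hfin
    exact Module.Finite.of_injective (Submodule.inclusion hP) (Submodule.inclusion_injective hP)
  refine ⟨h1, ?_⟩
  have h2 : Module.finrank K (DIM_P K τ n) ≤ s.card := by
    haveI := hfin
    exact (Submodule.finrank_mono hP).trans (finrank_span_finset_le_card s)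
  exact h2.trans hs

end Pool.Agent.helper27.PC
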