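import Pool.Agent.helper64.PC.SpecX

set_option autoImplicit false

namespace Pool.Agent.PC

open Finset Pool.Agent.PB

theorem APM_var (hCLV : CLV_stmt) {P A Om : Type} [Fintype P] [DecidableEq P] [Fintype A] [Fintype Om]
    (S : Sys P A Om) {N : ℕ} (ρ : P ≃ Fin N) (j : Fin N) :
    ∃ C : Finset (Finset P), ClF S.PF S.k S.t C ∧
        (∀ a, (fun x : Fin N → Bool => x j) (inp ρ (S.g a)) = true → AccT S.t C (S.g a)) ∧
        ∀ w, AccT S.t C (S.nu w) → (fun x : Fin N → Bool => x j) (inp ρ (S.nu w)) = true := by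
  classical
  refine ⟨famV S.PF S.t (ρ.symm j), hCLV P S.PF S.k S.t (ρ.symm j) S.sub S.k2, ?_, ?_⟩
  · intro a ha
    have hz : ρ.symm j ∈ S.g a := of_decide_eq_true ha
    have hs : ({ρ.symm j} : Finset P) ⊆ S.g a := singleton_subset_iff.2 hz
    refine ⟨{ρ.symm j}, ?_, ?_, hs⟩
    · unfold famV
      rw [mem_filter]
      refine ⟨mem_univ _, S.gPF a _ hs, ?_, mem_singleton_self _⟩
      have := S.t1
      rw [card_singleton]
      omega
    · rw [card_singleton]
      exact S.t1
  · intro w hw
    obtain ⟨B, hB, _, hBw⟩ := hw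
    unfold famV at hB
    rw [mem_filter] at hB
    exact decide_eq_true (hBw hB.2.2.2)

theorem APM (hCLV : CLV_stmt) (hCDB : CDB_stmt) (hCLE : CLE_stmt) (hCLC : CLC_stmt)
    (hGPE : GPE_stmt) : APM_stmt := by
  intro P A Om _ _ _ _ S N ρ l hl
  classical
  induction hl with
  | nil =>
    refine ⟨∅, ∅, by simp, by simp, ?_⟩
    intro u hu
    rcases hu with hu | ⟨j, hj⟩
    · exact absurd hu (List.not_mem_nil)
    · subst hj
      obtain ⟨C, h1, h2, h3⟩ := APM_var hCLV S ρ j
      exact ⟨C, h1, fun a _ => h2 a, fun w _ => h3 w⟩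
  | step l g b hprog hg hb ih =>
    obtain ⟨E0, E0', hE0, hE0', hall⟩ := ih
    have hch : ∀ i, ∃ C : Finset (Finset P), ClF S.PF S.k S.t C ∧
        (∀ a, a ∉ E0 → b i (inp ρ (S.g a)) = true → AccT S.t C (S.g a)) ∧
        ∀ w, w ∉ E0' → AccT S.t C (S.nu w) → b i (inp ρ (S.nu w)) = true := by
      intro i
      exact hall (b i) (hb i)
    choose C hC hpos hneg using hch
    have hm : g.1 ≤ S.m := hg.2
    have hmono : Mono g.2 := hg.1
    obtain ⟨D, hD1, hD2, hD3⟩ :=
      hCLE P Om S.PF S.nu S.t S.M (fun w => gv S.t g.2 C (S.nu w) = true)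
    have hDcl : ClF S.PF S.k S.t D := hCLC P A Om S _ D hD1 hD3
    have hG := hGPE P A Om S g.1 hm C hC g.2 hmono D hD3
    have hcD : D.card ≤ (Fintype.card P + 1) ^ (2 * S.t) :=
      hCDB P D (2 * S.t) (fun B hB => (hD1 B hB).2)
    rw [ct_eq] at hG hD2
    refine ⟨E0 ∪ univ.filter (fun a => gv S.t g.2 C (S.g a) = true ∧ ¬ AccT S.t D (S.g a)),
      E0' ∪ univ.filter (fun w => (∃ B ∈ D, B ⊆ S.nu w) ∧ ¬ gv S.t g.2 C (S.nu w) = true),
      ?_, ?_, ?_⟩
    · calc (E0 ∪ univ.filter (fun a => gv S.t g.2 C (S.g a) = true ∧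
            ¬ AccT S.t D (S.g a))).card * 4 ^ S.t
          ≤ (E0.card + (univ.filter (fun a => gv S.t g.2 C (S.g a) = true ∧
            ¬ AccT S.t D (S.g a))).card) * 4 ^ S.t :=
            Nat.mul_le_mul_right _ (card_union_le _ _)
        _ = E0.card * 4 ^ S.t + (univ.filter (fun a => gv S.t g.2 C (S.g a) = true ∧
            ¬ AccT S.t D (S.g a))).card * 4 ^ S.t := add_mul _ _ _
        _ ≤ l.length * Fintype.card A + Fintype.card A := add_le_add hE0 hG
        _ = _ := by
          rw [List.length_cons, add_mul, one_mul]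
    · calc (E0' ∪ univ.filter (fun w => (∃ B ∈ D, B ⊆ S.nu w) ∧
            ¬ gv S.t g.2 C (S.nu w) = true)).card * S.M
          ≤ (E0'.card + (univ.filter (fun w => (∃ B ∈ D, B ⊆ S.nu w) ∧
            ¬ gv S.t g.2 C (S.nu w) = true)).card) * S.M :=
            Nat.mul_le_mul_right _ (card_union_le _ _)
        _ = E0'.card * S.M + (univ.filter (fun w => (∃ B ∈ D, B ⊆ S.nu w) ∧
            ¬ gv S.t g.2 C (S.nu w) = true)).card * S.M := add_mul _ _ _
        _ ≤ l.length * ((Fintype.card P + 1) ^ (2 * S.t) * Fintype.card Om) +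
            (Fintype.card P + 1) ^ (2 * S.t) * Fintype.card Om :=
            add_le_add hE0' (hD2.trans (Nat.mul_le_mul_right _ hcD))
        _ = _ := by
          rw [List.length_cons, add_mul, one_mul]
    · intro u hu
      have hcases : u = (fun x => g.2 fun i => b i x) ∨ Av l u := by
        rcases hu with hu | hu
        · rcases List.mem_cons.1 hu with h | h
          · exact Or.inl h
          · exact Or.inr (Or.inl h)
        · exact Or.inr (Or.inr hu)
      rcases hcases with rfl | hu'
      · refine ⟨D, hDcl, ?_, ?_⟩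
        · intro a ha hval
          rw [mem_union, not_or] at ha
          by_contra hacc
          apply ha.2
          rw [mem_filter]
          refine ⟨mem_univ _, ?_, hacc⟩
          unfold gv
          refine hmono _ _ ?_ hval
          intro i hi
          exact decide_eq_true (hpos i a ha.1 hi)
        · intro w hw hacc
          rw [mem_union, not_or] at hw
          have hPhi : gv S.t g.2 C (S.nu w) = true := by
            by_contra hne
            apply hw.2
            rw [mem_filter]
            obtain ⟨B, hB, _, hBw⟩ := hacc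
            exact ⟨mem_univ _, ⟨B, hB, hBw⟩, hne⟩
          unfold gv at hPhi
          refine hmono _ _ ?_ hPhi
          intro i hi
          exact hneg i w hw.1 (of_decide_eq_true hi)
      · obtain ⟨C', h1, h2, h3⟩ := hall u hu'
        refine ⟨C', h1, ?_, ?_⟩
        · intro a ha
          rw [mem_union, not_or] at ha
          exact h2 a ha.1
        · intro w hw
          rw [mem_union, not_or] at hw
          exact h3 w hw.1

end Pool.Agent.PC
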