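import Pool.Agent.helper64.PC.SpecX

set_option autoImplicit false

namespace Pool.Agent.PC

open Finset Pool.Agent.PB

theorem GPE (hGP1 : GP1_stmt) (hGP2 : GP2_stmt) (hEXM : EXM_stmt) : GPE_stmt := by
  intro P A Om _ _ _ _ S d hd C hC φ hφ D hD
  classical
  set E : Finset A := univ.filter (fun a => gv S.t φ C (S.g a) = true ∧ ¬ AccT S.t D (S.g a))
    with hE
  have hct : ct (fun a => gv S.t φ C (S.g a) = true ∧ ¬ AccT S.t D (S.g a)) = E.card := by
    rw [ct_eq]
  rw [hct]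
  by_cases hEe : E = ∅
  · rw [hEe]
    simp
  have hEne : E.Nonempty := nonempty_iff_ne_empty.2 hEe
  obtain ⟨U, hU2, hUE, hbig, hmax⟩ := hGP1 P A Om S E hEne
  by_cases htU : S.t ≤ U.card
  · exact hbig htU
  exfalso
  have htU' : U.card < S.t := not_le.1 htU
  obtain ⟨a, haE, hUa, hno⟩ := hGP2 P A Om S E U htU' hUE hmax d hd C hC
  have ha := (mem_filter.1 haE).2
  have hUPF : S.PF U := S.gPF a U hUa
  have hclaim : ∀ w, U ⊆ S.nu w → ∀ i, AccT S.t (C i) (S.g a) → AccT S.t (C i) (S.nu w) := by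
    intro w hw i hacc
    obtain ⟨B, hB, hBt, hBa⟩ := hacc
    have hUB : U ∪ (B \ U) = U ∪ B := by simp
    have hsub : U ∪ B ⊆ S.g a := union_subset hUa hBa
    have hcard : (U ∪ B).card ≤ 2 * S.t := by
      have := card_union_le U B
      omega
    have hmem : U ∪ B ∈ C i :=
      (hC i).up B hB (U ∪ B) subset_union_right (S.gPF a _ hsub) hcard
    obtain ⟨Z, hZB, hZ⟩ := hEXM P (C i) U (B \ U) disjoint_sdiff (by rw [hUB]; exact hmem)
    have hZB' : Z ⊆ B := hZB.trans sdiff_subset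
    have hZt : Z.card ≤ S.t := (card_le_card hZB').trans hBt
    have hZ0 : Z.card = 0 := by
      by_contra hne
      exact hno i Z.card (Nat.one_le_iff_ne_zero.2 hne) hZt Z hZ (hZB'.trans hBa)
    have hZe : Z = ∅ := card_eq_zero.1 hZ0
    have hZm := (mem_filter.1 hZ).2.2.2.1
    rw [hZe, union_empty] at hZm
    exact ⟨U, hZm, htU'.le, hw⟩
  have hval : ∀ w, U ⊆ S.nu w → gv S.t φ C (S.nu w) = true := by
    intro w hw
    unfold gv
    refine hφ _ _ ?_ ha.1
    intro i hi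
    have := of_decide_eq_true hi
    exact decide_eq_true (hclaim w hw i this)
  have hUD : U ∈ D := by
    apply hD U hUPF hU2
    have h0 : ct (fun w => U ⊆ S.nu w ∧ ¬ gv S.t φ C (S.nu w) = true ∧
        ¬ ∃ B' ∈ D, B' ⊆ S.nu w) = 0 :=
      ct_false fun w hw => hw.2.1 (hval w hw.1)
    rw [h0]
    simp
  exact ha.2 ⟨U, hUD, htU'.le, hUa⟩

end Pool.Agent.PC
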